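import Pool.Agent.H76.BDS.Main

open Set Topology Pool.Agent.H76.BDS

namespace Pool.Agent.Results.MP_c0f4fb_gt.BelowDominating

universe u

/-- In a bisequential compactum every nonempty closed `G_delta` subset whose weight is below the
dominating number contains a point at which the whole space is first countable. -/
theorem result :
    ∀ (X : Type u) [TopologicalSpace X] [CompactSpace X] [T2Space X], Bisequential X →
      ∀ K : Set X, K.Nonempty → IsClosed K → IsGδ K →
        wt K < Cardinal.lift.{u} domNum →
        ∃ x ∈ K, (𝓝 x).IsCountablyGenerated :=
  main

end Pool.Agent.Results.MP_c0f4fb_gt.BelowDominating
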